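import Pool.Agent.Lib.MP_aa7e4d_lc.Interfaces

/-!
# ULTRA: ultrapowers of generic frames
-/

open FirstOrder FirstOrder.Language Filter

namespace Pool.Agent.SFC.H60

variable {M I : Type} (u : Ultrafilter I)

/-- the ultrapower of the set `M` -/
abbrev Pw (M : Type) {I : Type} (u : Ultrafilter I) : Type := (u : Filter I).Product (fun _ : I => M)

/-- class of a function -/
def cl (g : I → M) : Pw M u := (g : (u : Filter I).Product (fun _ : I => M))

/-- representative -/
noncomputable def rep (x : Pw M u) : I → M := Quotient.out x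

variable {u}

theorem cl_rep (x : Pw M u) : cl u (rep u x) = x := Quotient.out_eq x

theorem cl_eq {g h : I → M} : cl u g = cl u h ↔ ∀ᶠ a in (u : Filter I), g a = h a :=
  Quotient.eq''

theorem rep_cl (g : I → M) : ∀ᶠ a in (u : Filter I), rep u (cl u g) a = g a :=
  cl_eq.1 (cl_rep (cl u g))

theorem ex_cl (x : Pw M u) : ∃ g : I → M, cl u g = x := ⟨rep u x, cl_rep x⟩

variable (F : Frame M)

/-- kind in the ultrapower -/
noncomputable def kindU (x : Pw M u) : Kind := by
  classical
  exact if ∀ᶠ a in (u : Filter I), F.kind (rep u x a) = .A then .A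
    else if ∀ᶠ a in (u : Filter I), F.kind (rep u x a) = .B then .B else .L

theorem kind_rep (x : Pw M u) : ∀ᶠ a in (u : Filter I), F.kind (rep u x a) = kindU F x := by
  classical
  unfold kindU
  split_ifs with h1 h2
  · exact h1
  · exact h2
  · rw [← Ultrafilter.eventually_not] at h1 h2
    filter_upwards [h1, h2] with a ha hb
    cases hk : F.kind (rep u x a)
    · exact absurd hk ha
    · exact absurd hk hb
    · rfl

theorem kind_cl (g : I → M) : ∀ᶠ a in (u : Filter I), F.kind (g a) = kindU F (cl u g) := by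
  filter_upwards [kind_rep F (cl u g), rep_cl (u := u) g] with a h1 h2
  rw [← h1, h2]

theorem kind_cl_iff (g : I → M) (κ : Kind) :
    kindU F (cl u g) = κ ↔ ∀ᶠ a in (u : Filter I), F.kind (g a) = κ := by
  constructor
  · intro h; rw [← h]; exact kind_cl F g
  · intro h
    obtain ⟨a, h1, h2⟩ := (h.and (kind_cl F g)).exists
    rw [← h2, h1]

/-- parents in the ultrapower -/
noncomputable def fU (i : Fn) (x : Pw M u) : Pw M u := cl u (fun a => F.f i (rep u x a))

theorem f_cl (i : Fn) (g : I → M) : fU F i (cl u g) = cl u (fun a => F.f i (g a)) := by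
  unfold fU
  rw [cl_eq]
  filter_upwards [rep_cl (u := u) g] with a h
  rw [h]

/-- the relation in the ultrapower -/
def RU (x y : Pw M u) : Prop := ∀ᶠ a in (u : Filter I), F.R (rep u x a) (rep u y a)

theorem R_cl (g h : I → M) : RU F (cl u g) (cl u h) ↔ ∀ᶠ a in (u : Filter I), F.R (g a) (h a) := by
  unfold RU
  apply eventually_congr
  filter_upwards [rep_cl (u := u) g, rep_cl (u := u) h] with a h1 h2
  rw [h1, h2]

/-- the order in the ultrapower -/
def ltU (x y : Pw M u) : Prop := ∀ᶠ a in (u : Filter I), F.lt (rep u x a) (rep u y a)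

theorem lt_cl (g h : I → M) : ltU F (cl u g) (cl u h) ↔ ∀ᶠ a in (u : Filter I), F.lt (g a) (h a) := by
  unfold ltU
  apply eventually_congr
  filter_upwards [rep_cl (u := u) g, rep_cl (u := u) h] with a h1 h2
  rw [h1, h2]

/-- the ultrapower of a frame -/
noncomputable def pw (u : Ultrafilter I) : Frame (Pw M u) where
  kind := kindU F
  f := fU F
  R := RU F
  lt := ltU F
  lt_irrefl := by
    intro x h
    obtain ⟨g, rfl⟩ := ex_cl x
    rw [lt_cl] at h
    obtain ⟨a, ha⟩ := h.exists
    exact F.lt_irrefl _ ha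
  lt_trans := by
    intro x y z h1 h2
    unfold ltU at *
    filter_upwards [h1, h2] with a h1 h2
    exact F.lt_trans _ _ _ h1 h2
  f_lt := by
    intro i x h
    obtain ⟨g, rfl⟩ := ex_cl x
    rw [f_cl] at h ⊢
    rw [Ne, cl_eq, ← Ultrafilter.eventually_not] at h
    rw [lt_cl]
    filter_upwards [h] with a ha
    exact F.f_lt i _ ha
  f_ok := by
    intro i x h
    obtain ⟨g, rfl⟩ := ex_cl x
    rw [f_cl] at h ⊢
    rw [Ne, cl_eq, ← Ultrafilter.eventually_not] at h
    obtain ⟨a, ⟨ha, hb⟩, hc⟩ :=
      ((h.and (kind_cl F g)).and (kind_cl F (u := u) (fun a => F.f i (g a)))).exists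
    rw [← hb, ← hc]
    exact F.f_ok i _ ha
  R_symm := by
    intro x y h
    unfold RU at *
    filter_upwards [h] with a ha
    exact F.R_symm _ _ ha
  R_irrefl := by
    intro x h
    unfold RU at h
    obtain ⟨a, ha⟩ := h.exists
    exact F.R_irrefl _ ha

theorem pw_kind (x : Pw M u) : (pw F u).kind x = kindU F x := rfl
theorem pw_f (i : Fn) (x : Pw M u) : (pw F u).f i x = fU F i x := rfl
theorem pw_R (x y : Pw M u) : (pw F u).R x y = RU F x y := rfl

theorem inc_cl (g h : I → M) :
    (pw F u).Inc (cl u g) (cl u h) ↔ ∀ᶠ a in (u : Filter I), F.Inc (g a) (h a) := by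
  unfold Frame.Inc
  simp only [pw_kind, pw_f, f_cl, cl_eq, kind_cl_iff, Ne, eventually_and,
    Ultrafilter.eventually_or, Ultrafilter.eventually_not]

theorem adj_cl (g h : I → M) :
    (pw F u).Adj (cl u g) (cl u h) ↔ ∀ᶠ a in (u : Filter I), F.Adj (g a) (h a) := by
  unfold Frame.Adj
  simp only [pw_kind, pw_f, pw_R, f_cl, cl_eq, kind_cl_iff, R_cl, inc_cl, Ne, eventually_and,
    Ultrafilter.eventually_or, Ultrafilter.eventually_not]

theorem pw_generic [Nonempty M] (hF : F.Generic) : (pw F u).Generic := by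
  classical
  intro S κ g U hg
  -- good indices
  have hgood : ∀ᶠ a in (u : Filter I), (∀ x ∈ S, F.kind (rep u x a) = kindU F x) ∧
      (∀ x ∈ S, ∀ y ∈ S, rep u x a = rep u y a → x = y) := by
    refine Filter.Eventually.and ?_ ?_
    · rw [Filter.eventually_all_finset]
      intro x _
      exact kind_rep F x
    · rw [Filter.eventually_all_finset]
      intro x _
      rw [Filter.eventually_all_finset]
      intro y _
      by_cases hxy : x = y
      · exact Filter.Eventually.of_forall (fun a _ => hxy)
      · have : ¬ ∀ᶠ a in (u : Filter I), rep u x a = rep u y a := by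
          intro h
          apply hxy
          rw [← cl_rep x, ← cl_rep y, cl_eq]
          exact h
        rw [← Ultrafilter.eventually_not] at this
        filter_upwards [this] with a ha h
        exact absurd h ha
  have key : ∀ a : I, ∃ v : M, ((∀ x ∈ S, F.kind (rep u x a) = kindU F x) ∧
      (∀ x ∈ S, ∀ y ∈ S, rep u x a = rep u y a → x = y)) →
      ((∀ x ∈ S, v ≠ rep u x a) ∧ F.kind v = κ ∧ (∀ i, g i = none → F.f i v = v) ∧
        (∀ i y, g i = some y → F.f i v = rep u y a) ∧
        ∀ x ∈ S, (F.R v (rep u x a) ↔ x ∈ U)) := by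
    intro a
    by_cases hga : (∀ x ∈ S, F.kind (rep u x a) = kindU F x) ∧
      (∀ x ∈ S, ∀ y ∈ S, rep u x a = rep u y a → x = y)
    · obtain ⟨v, hv1, hv2, hv3, hv4, hv5⟩ := hF (S.image (fun x => rep u x a)) κ
        (fun i => (g i).map (fun y => rep u y a)) {m | ∃ x ∈ S, x ∈ U ∧ rep u x a = m} (by
          intro i y hy
          rw [Option.map_eq_some_iff] at hy
          obtain ⟨z, hz, rfl⟩ := hy
          obtain ⟨h1, h2⟩ := hg i z hz
          refine ⟨Finset.mem_image_of_mem _ h1, ?_⟩
          rw [hga.1 z h1]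
          exact h2)
      refine ⟨v, fun _ => ⟨?_, hv2, ?_, ?_, ?_⟩⟩
      · intro x hx h
        exact hv1 (h ▸ Finset.mem_image_of_mem _ hx)
      · intro i hi
        exact hv3 i (by simp [hi])
      · intro i y hy
        exact hv4 i _ (by simp [hy])
      · intro x hx
        rw [hv5 _ (Finset.mem_image_of_mem _ hx)]
        constructor
        · rintro ⟨y, hy, hyU, hyx⟩
          exact hga.2 y hy x hx hyx ▸ hyU
        · intro hxU
          exact ⟨x, hx, hxU, rfl⟩
    · exact ⟨Classical.arbitrary M, fun h => absurd h hga⟩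
  choose v hv using key
  refine ⟨cl u v, ?_, ?_, ?_, ?_, ?_⟩
  · intro h
    obtain ⟨a, ha, hb⟩ := (hgood.and (rep_cl (u := u) v)).exists
    exact (hv a ha).1 _ h hb.symm
  · rw [pw_kind, kind_cl_iff]
    filter_upwards [hgood] with a ha
    exact (hv a ha).2.1
  · intro i hi
    rw [pw_f, f_cl, cl_eq]
    filter_upwards [hgood] with a ha
    exact (hv a ha).2.2.1 i hi
  · intro i y hy
    rw [pw_f, f_cl, ← cl_rep y, cl_eq]
    filter_upwards [hgood] with a ha
    exact (hv a ha).2.2.2.1 i y hy
  · intro x hx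
    have h1 : (pw F u).R (cl u v) x ↔ ∀ᶠ a in (u : Filter I), F.R (v a) (rep u x a) := by
      rw [pw_R]
      conv_lhs => rw [← cl_rep x]
      rw [R_cl]
    rw [h1]
    constructor
    · intro h
      obtain ⟨a, ha, hb⟩ := (hgood.and h).exists
      exact ((hv a ha).2.2.2.2 x hx).1 hb
    · intro h
      filter_upwards [hgood] with a ha
      exact ((hv a ha).2.2.2.2 x hx).2 h

theorem relMap_cl [Lang.Structure M] {n : ℕ} (r : Lang.Relations n) (x : Fin n → I → M) :
    Structure.RelMap r (fun i => cl u (x i)) ↔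
      ∀ᶠ a in (u : Filter I), Structure.RelMap r (fun i => x i a) := by
  unfold cl
  apply relMap_quotient_mk'

theorem pw_compat [Lang.Structure M] (hF : Compat F) : Compat (pw F u) := by
  refine ⟨?_, ?_, ?_⟩
  · intro κ v
    have hv : v = fun i => cl u (rep u (v i)) := funext fun i => (cl_rep (v i)).symm
    rw [hv]
    refine (relMap_cl (u := u) (Sym.kd κ : Lang.Relations 1) (fun i => rep u (v i))).trans ?_
    rw [pw_kind, kind_cl_iff]
    exact eventually_congr (Filter.Eventually.of_forall fun a => hF.1 κ _)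
  · intro v
    have hv : v = fun i => cl u (rep u (v i)) := funext fun i => (cl_rep (v i)).symm
    rw [hv]
    refine (relMap_cl (u := u) (Sym.inc : Lang.Relations 2) (fun i => rep u (v i))).trans ?_
    rw [inc_cl]
    exact eventually_congr (Filter.Eventually.of_forall fun a => hF.2.1 _)
  · intro v
    have hv : v = fun i => cl u (rep u (v i)) := funext fun i => (cl_rep (v i)).symm
    rw [hv]
    refine (relMap_cl (u := u) (Sym.adj : Lang.Relations 2) (fun i => rep u (v i))).trans ?_
    rw [adj_cl]
    exact eventually_congr (Filter.Eventually.of_forall fun a => hF.2.2 _)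

theorem ultra : UltraStatement := by
  intro M _ _ F hF hc I u
  exact ⟨pw F u, pw_generic F hF, pw_compat F hc⟩

end Pool.Agent.SFC.H60
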